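import Pool.Agent.H967Z.CpMain

set_option autoImplicit false

namespace Pool.Agent.Results.MP_8c4e2c_gt.AConsistentNo

/-- (1) Some forcing notion preserves omega one and forces CH. (2) CH implies that there is a
Tychonoff space `X` such that `C_p(X)` is hereditarily separable and not sequentially separable. -/
theorem result :
    (∃ (P : Type) (_ : Preorder P), Nonempty P ∧ ∀ p : P,
      p ∈ Pool.Agent.Helper292.ForceCH.OmegaOnePreserved P ∧
      p ∈ Pool.Agent.Helper292.ForceCH.CHHolds P) ∧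
    (Cardinal.aleph 1 = Cardinal.continuum.{0} →
      ∃ (X : Type) (_ : TopologicalSpace X), T35Space X ∧
        (∀ S : Set {f : X → ℝ // Continuous f}, ∃ c ⊆ S, c.Countable ∧ S ⊆ closure c) ∧
        ¬ ∃ D : Set {f : X → ℝ // Continuous f}, D.Countable ∧ seqClosure D = Set.univ) := by
  refine ⟨?_, Pool.Agent.H967Z.CpSeq.main⟩
  obtain ⟨P, i, h1, h2⟩ := Pool.Agent.Helper292.ForceCH.exists_forcing
  exact ⟨P, i, h1, fun p => ⟨(h2 p).1, (h2 p).2.2⟩⟩

end Pool.Agent.Results.MP_8c4e2c_gt.AConsistentNo
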